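import Pool.Agent.Sro.C2

set_option autoImplicit false

namespace Pool.Agent.Sro

open scoped commutatorElement
open Filter Topology

universe u

variable {G : Type u} [Group G]

namespace Setup

variable (s : Setup G)

lemma rho_one : s.rho 1 = 0 := by
  have := s.rho_mul s.A.one_mem s.A.one_mem
  rw [mul_one] at this
  linarith

lemma rho_inv {b : G} (hb : b ∈ s.A) : s.rho b⁻¹ = -s.rho b := by
  have := s.rho_mul hb (inv_mem hb)
  rw [mul_inv_cancel, rho_one] at this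
  linarith

lemma rho_pow {b : G} (hb : b ∈ s.A) (n : ℕ) : s.rho (b ^ n) = n * s.rho b := by
  induction n with
  | zero => simp [rho_one]
  | succ n ih =>
    rw [pow_succ, s.rho_mul (pow_mem hb n) hb, ih]
    push_cast; ring

lemma rho_zpow {b : G} (hb : b ∈ s.A) (j : ℤ) : s.rho (b ^ j) = j * s.rho b := by
  obtain ⟨n, rfl | rfl⟩ := j.eq_nat_or_neg
  · rw [zpow_natCast, s.rho_pow hb]; simp
  · rw [zpow_neg, zpow_natCast, s.rho_inv (pow_mem hb n), s.rho_pow hb]
    push_cast; ring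

lemma rho_pos_iff {b : G} (hb : b ∈ s.A) : 0 < s.rho b ↔ ∃ k : ℕ, s.P.le s.a (b ^ k) := by
  constructor
  · intro hpos
    have h1 := (s.tendsto_rho hb).eventually (lt_mem_nhds hpos)
    obtain ⟨n, hn, hn0⟩ := (h1.and (eventually_gt_atTop 0)).exists
    have hn' : (0 : ℝ) < n := by exact_mod_cast hn0
    have h2 : (0 : ℝ) < s.h (b ^ n) := by
      have := mul_pos hn hn'
      rwa [div_mul_cancel₀ _ hn'.ne'] at this
    have h3 : 0 < s.h (b ^ n) := by exact_mod_cast h2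
    refine ⟨n, ?_⟩
    have h4 : s.P.le (s.a ^ (1 : ℤ)) (s.a ^ s.h (b ^ n)) := s.zpow_le (by omega)
    rw [zpow_one] at h4
    exact s.P.trans h4 (s.h_le _)
  · rintro ⟨k, hk⟩
    have h1 := s.rho_le s.ha (pow_mem hb k) hk
    rw [s.rho_a, s.rho_pow hb] at h1
    by_contra hcon
    have h2 : (k : ℝ) * s.rho b ≤ 0 :=
      mul_nonpos_of_nonneg_of_nonpos (Nat.cast_nonneg k) (not_lt.mp hcon)
    linarith

lemma cof {b : G} (hb : b ∈ s.A) (hpos : 0 < s.rho b) (x y : G) :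
    ∃ n : ℕ, s.P.le x (b ^ n * y) := by
  obtain ⟨k, hk⟩ := (s.rho_pos_iff hb).mp hpos
  obtain ⟨i, hi⟩ := s.hup x
  obtain ⟨j, hj⟩ := s.hdn y
  refine ⟨k * (i + j), ?_⟩
  rw [pow_mul]
  have hbk : b ^ k ∈ s.A := pow_mem hb k
  have hbki : (b ^ k) ^ (i + j) ∈ s.A := pow_mem hbk _
  have haj : (s.a ^ j)⁻¹ ∈ s.A := inv_mem (pow_mem s.ha j)
  have h1 : s.P.le (s.a ^ (i + j)) ((b ^ k) ^ (i + j)) := s.P.pow_le s.hAA s.ha hbk hk (i + j)
  have h2 := s.P.left (s.a ^ j)⁻¹ h1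
  have e : (s.a ^ j)⁻¹ * s.a ^ (i + j) = s.a ^ i := by
    rw [add_comm, pow_add]; group
  rw [e] at h2
  have h3 := s.P.swap' s.hAA haj hbki
  have h4 := s.P.left ((b ^ k) ^ (i + j)) hj
  exact s.P.trans (s.P.trans (s.P.trans hi h2) h3) h4

lemma conj_mem (hAn : s.A.Normal) (g : G) {b : G} (hb : b ∈ s.A) : g * b * g⁻¹ ∈ s.A :=
  hAn.conj_mem b hb g

lemma conj_pos (hAn : s.A.Normal) (g : G) {b : G} (hb : b ∈ s.A) (hpos : 0 < s.rho b) :
    0 < s.rho (g * b * g⁻¹) := by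
  rw [s.rho_pos_iff (s.conj_mem hAn g hb)]
  obtain ⟨n, hn⟩ := s.cof hb hpos (g⁻¹ * s.a) g⁻¹
  refine ⟨n, ?_⟩
  have h1 := s.P.left g hn
  rw [mul_inv_cancel_left] at h1
  rw [conj_pow, mul_assoc]
  exact h1

lemma rho_conj_ge (hAn : s.A.Normal) (g : G) {b : G} (hb : b ∈ s.A) :
    s.rho (g * s.a * g⁻¹) * s.rho b ≤ s.rho (g * b * g⁻¹) := by
  have hl : 0 < s.rho (g * s.a * g⁻¹) :=
    s.conj_pos hAn g s.ha (by rw [s.rho_a]; exact one_pos)
  by_contra hcon
  push Not at hcon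
  set l := s.rho (g * s.a * g⁻¹) with hldef
  have h1 : s.rho (g * b * g⁻¹) / l < s.rho b := by
    rw [div_lt_iff₀ hl]; linarith
  obtain ⟨q, hq1, hq2⟩ := exists_rat_btwn h1
  have hden : (0 : ℝ) < q.den := by exact_mod_cast q.den_pos
  have hq : (q : ℝ) = q.num / q.den := by
    rw [Rat.cast_def]
  have hc : b ^ q.den * s.a ^ (-q.num) ∈ s.A := mul_mem (pow_mem hb _) (s.zpow_mem' _)
  have h2 : 0 < s.rho (b ^ q.den * s.a ^ (-q.num)) := by
    rw [s.rho_mul (pow_mem hb _) (s.zpow_mem' _), s.rho_pow hb, s.rho_zpow s.ha, s.rho_a]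
    rw [hq, div_lt_iff₀ hden] at hq2
    push_cast
    linarith
  have h3 := s.conj_pos hAn g hc h2
  have e : g * (b ^ q.den * s.a ^ (-q.num)) * g⁻¹
      = (g * b * g⁻¹) ^ q.den * (g * s.a * g⁻¹) ^ (-q.num) := by
    rw [conj_pow, conj_zpow]; group
  rw [e, s.rho_mul (pow_mem (s.conj_mem hAn g hb) _) (zpow_mem (s.conj_mem hAn g s.ha) _),
    s.rho_pow (s.conj_mem hAn g hb), s.rho_zpow (s.conj_mem hAn g s.ha), ← hldef] at h3
  rw [div_lt_iff₀ hl, hq, div_mul_eq_mul_div, lt_div_iff₀ hden] at hq1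
  push_cast at h3
  linarith

lemma rho_conj (hAn : s.A.Normal) (g : G) {b : G} (hb : b ∈ s.A) :
    s.rho (g * b * g⁻¹) = s.rho (g * s.a * g⁻¹) * s.rho b := by
  apply le_antisymm _ (s.rho_conj_ge hAn g hb)
  have h1 := s.rho_conj_ge hAn g (inv_mem hb)
  have e : g * b⁻¹ * g⁻¹ = (g * b * g⁻¹)⁻¹ := by group
  rw [e, s.rho_inv hb, s.rho_inv (s.conj_mem hAn g hb)] at h1
  linarith

/-- The multiplier. -/
noncomputable def lam (g : G) : ℝ := s.rho (g * s.a * g⁻¹)

lemma lam_pos (hAn : s.A.Normal) (g : G) : 0 < s.lam g :=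
  s.conj_pos hAn g s.ha (by rw [s.rho_a]; exact one_pos)

lemma lam_mul (hAn : s.A.Normal) (g k : G) : s.lam (g * k) = s.lam g * s.lam k := by
  unfold lam
  have e : g * k * s.a * (g * k)⁻¹ = g * (k * s.a * k⁻¹) * g⁻¹ := by group
  rw [e, s.rho_conj hAn g (s.conj_mem hAn k s.ha)]

/-- `g` is bounded by an element of `A` with translation number at most `r`. -/
def U (g : G) (r : ℝ) : Prop := ∃ b ∈ s.A, s.P.le g b ∧ s.rho b ≤ r

section inv

variable (hAn : s.A.Normal) (hlam : ∀ g, s.lam g = 1)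
include hAn hlam

lemma rho_conj_eq (g : G) {b : G} (hb : b ∈ s.A) : s.rho (g * b * g⁻¹) = s.rho b := by
  rw [s.rho_conj hAn g hb]
  have := hlam g
  unfold lam at this
  rw [this, one_mul]

lemma U_mul {g k : G} {r t : ℝ} (h1 : s.U g r) (h2 : s.U k t) : s.U (g * k) (r + t) := by
  obtain ⟨b, hb, hgb, hbr⟩ := h1
  obtain ⟨c, hc, hkc, hct⟩ := h2
  refine ⟨(g * c * g⁻¹) * b, mul_mem (s.conj_mem hAn g hc) hb, ?_, ?_⟩
  · have h3 := s.P.left g hkc
    have h4 := s.P.left (g * c * g⁻¹) hgb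
    have e : g * c * g⁻¹ * g = g * c := by group
    rw [e] at h4
    exact s.P.trans h3 h4
  · rw [s.rho_mul (s.conj_mem hAn g hc) hb, s.rho_conj_eq hAn hlam g hc]
    linarith

lemma U_pow {g : G} {r : ℝ} (h1 : s.U g r) (n : ℕ) : s.U (g ^ n) (n * r) := by
  induction n with
  | zero =>
    refine ⟨1, s.A.one_mem, ?_, ?_⟩
    · rw [pow_zero]; exact s.P.refl 1
    · rw [s.rho_one]; simp
  | succ n ih =>
    rw [pow_succ]
    have := s.U_mul hAn hlam ih h1
    have e : ((n + 1 : ℕ) : ℝ) * r = n * r + r := by push_cast; ring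
    rw [e]; exact this

variable {D : Subgroup G} (hD : s.A = ⁅D, D⁆)
include hD

omit hAn hlam in
lemma comm_mem {x y : G} (hx : x ∈ D) (hy : y ∈ D) : ⁅x, y⁆ ∈ s.A := by
  rw [hD]; exact Subgroup.commutator_mem_commutator hx hy

lemma comm_pow_left {x y : G} (hx : x ∈ D) (hy : y ∈ D) (n : ℕ) :
    s.rho ⁅x ^ n, y⁆ = n * s.rho ⁅x, y⁆ := by
  induction n with
  | zero =>
    have : ⁅x ^ 0, y⁆ = 1 := by rw [commutatorElement_def]; group
    rw [this, s.rho_one]; simp
  | succ n ih =>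
    have e : ⁅x ^ (n + 1), y⁆ = x * ⁅x ^ n, y⁆ * x⁻¹ * ⁅x, y⁆ := by
      rw [commutatorElement_def, commutatorElement_def, commutatorElement_def, pow_succ']
      group
    have h1 : ⁅x ^ n, y⁆ ∈ s.A := s.comm_mem hD (pow_mem hx n) hy
    rw [e, s.rho_mul (s.conj_mem hAn x h1) (s.comm_mem hD hx hy),
      s.rho_conj_eq hAn hlam x h1, ih]
    push_cast; ring

lemma comm_pow_right {x y : G} (hx : x ∈ D) (hy : y ∈ D) (n : ℕ) :
    s.rho ⁅x, y ^ n⁆ = n * s.rho ⁅x, y⁆ := by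
  induction n with
  | zero =>
    have : ⁅x, y ^ 0⁆ = 1 := by rw [commutatorElement_def]; group
    rw [this, s.rho_one]; simp
  | succ n ih =>
    have e : ⁅x, y ^ (n + 1)⁆ = ⁅x, y⁆ * (y * ⁅x, y ^ n⁆ * y⁻¹) := by
      rw [commutatorElement_def, commutatorElement_def, commutatorElement_def, pow_succ']
      group
    have h1 : ⁅x, y ^ n⁆ ∈ s.A := s.comm_mem hD hx (pow_mem hy n)
    rw [e, s.rho_mul (s.comm_mem hD hx hy) (s.conj_mem hAn y h1),
      s.rho_conj_eq hAn hlam y h1, ih]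
    push_cast; ring

lemma comm_nonpos {x y : G} (hx : x ∈ D) (hy : y ∈ D) : s.rho ⁅x, y⁆ ≤ 0 := by
  have hUex : ∀ g : G, ∃ M : ℝ, s.U g M := by
    intro g
    obtain ⟨n, hn⟩ := s.hup g
    exact ⟨s.rho (s.a ^ n), s.a ^ n, pow_mem s.ha n, hn, le_refl _⟩
  obtain ⟨M₁, h₁⟩ := hUex x
  obtain ⟨M₂, h₂⟩ := hUex y
  obtain ⟨M₃, h₃⟩ := hUex x⁻¹
  obtain ⟨M₄, h₄⟩ := hUex y⁻¹
  have key : ∀ n : ℕ, (n : ℝ) * (n * s.rho ⁅x, y⁆) ≤ n * (M₁ + M₂ + M₃ + M₄) := by
    intro n
    have hU := s.U_mul hAn hlam (s.U_mul hAn hlam (s.U_mul hAn hlam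
      (s.U_pow hAn hlam h₁ n) (s.U_pow hAn hlam h₂ n)) (s.U_pow hAn hlam h₃ n))
      (s.U_pow hAn hlam h₄ n)
    have e : x ^ n * y ^ n * x⁻¹ ^ n * y⁻¹ ^ n = ⁅x ^ n, y ^ n⁆ := by
      rw [commutatorElement_def, inv_pow, inv_pow]
    rw [e] at hU
    obtain ⟨b, hb, hle, hr⟩ := hU
    have h5 := s.rho_le (s.comm_mem hD (pow_mem hx n) (pow_mem hy n)) hb hle
    rw [s.comm_pow_left hAn hlam hD hx (pow_mem hy n), s.comm_pow_right hAn hlam hD hx hy] at h5
    linarith
  by_contra hcon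
  push Not at hcon
  obtain ⟨n, hn⟩ := exists_nat_gt (max 1 ((M₁ + M₂ + M₃ + M₄) / s.rho ⁅x, y⁆))
  have hn1 : (1 : ℝ) < n := lt_of_le_of_lt (le_max_left _ _) hn
  have hn2 : (M₁ + M₂ + M₃ + M₄) / s.rho ⁅x, y⁆ < n := lt_of_le_of_lt (le_max_right _ _) hn
  rw [div_lt_iff₀ hcon] at hn2
  have := key n
  have h6 : (n : ℝ) * s.rho ⁅x, y⁆ ≤ M₁ + M₂ + M₃ + M₄ :=
    le_of_mul_le_mul_left this (by linarith)
  linarith

lemma false_of_comm : False := by
  have hzero : ∀ x ∈ D, ∀ y ∈ D, s.rho ⁅x, y⁆ = 0 := by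
    intro x hx y hy
    apply le_antisymm (s.comm_nonpos hAn hlam hD hx hy)
    have h1 := s.comm_nonpos hAn hlam hD hy hx
    rw [← commutatorElement_inv, s.rho_inv (s.comm_mem hD hx hy)] at h1
    linarith
  have hall : ∀ z ∈ s.A, s.rho z = 0 := by
    let K : Subgroup G :=
      { carrier := {z | z ∈ s.A ∧ s.rho z = 0}
        mul_mem' := by
          rintro a b ⟨ha, ha'⟩ ⟨hb, hb'⟩
          exact ⟨mul_mem ha hb, by rw [s.rho_mul ha hb, ha', hb', add_zero]⟩
        one_mem' := ⟨s.A.one_mem, s.rho_one⟩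
        inv_mem' := by
          rintro a ⟨ha, ha'⟩
          exact ⟨inv_mem ha, by rw [s.rho_inv ha, ha', neg_zero]⟩ }
    have hK : ⁅D, D⁆ ≤ K := by
      rw [Subgroup.commutator_le]
      intro x hx y hy
      exact ⟨s.comm_mem hD hx hy, hzero x hx y hy⟩
    intro z hz
    rw [hD] at hz
    exact (hK hz).2
  have := hall s.a s.ha
  rw [s.rho_a] at this
  exact one_ne_zero this

end inv

/-- Case 3 gives a nontrivial homomorphism to the reals. -/
theorem final (hAn : s.A.Normal) (hD : s.A = ⊤ ∨ ∃ D : Subgroup G, s.A = ⁅D, D⁆) :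
    ∃ φ : G →* Multiplicative ℝ, φ ≠ 1 := by
  by_cases hlam : ∀ g, s.lam g = 1
  · rcases hD with htop | ⟨D, hD⟩
    · have hmem : ∀ g : G, g ∈ s.A := fun g => by rw [htop]; trivial
      refine ⟨{ toFun := fun g => Multiplicative.ofAdd (s.rho g)
                map_one' := by rw [s.rho_one]; rfl
                map_mul' := fun x y => by rw [s.rho_mul (hmem x) (hmem y)]; rfl }, ?_⟩
      intro hcon
      have h1 := DFunLike.congr_fun hcon s.a
      have h2 : s.rho s.a = 0 := Multiplicative.ofAdd.injective h1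
      rw [s.rho_a] at h2
      exact one_ne_zero h2
    · exact (s.false_of_comm hAn hlam hD).elim
  · push Not at hlam
    obtain ⟨g, hg⟩ := hlam
    refine ⟨{ toFun := fun g => Multiplicative.ofAdd (Real.log (s.lam g))
              map_one' := by
                have : s.lam 1 = 1 := by
                  unfold lam
                  have e : (1 : G) * s.a * 1⁻¹ = s.a := by group
                  rw [e, s.rho_a]
                rw [this, Real.log_one]; rfl
              map_mul' := fun x y => by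
                rw [s.lam_mul hAn, Real.log_mul (s.lam_pos hAn x).ne' (s.lam_pos hAn y).ne']
                rfl }, ?_⟩
    intro hcon
    have h1 := DFunLike.congr_fun hcon g
    have h2 : Real.log (s.lam g) = 0 := Multiplicative.ofAdd.injective h1
    have h3 := Real.eq_one_of_pos_of_log_eq_zero (s.lam_pos hAn g) h2
    exact hg h3

end Setup

/-- A finitely generated group with a nontrivial left-invariant total preorder on which some
term of the derived series acts trivially has a nontrivial homomorphism to the reals. -/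
theorem exists_hom {S : Set G} (hS : S.Finite) (hgen : Subgroup.closure S = ⊤) (n : ℕ) :
    ∀ P : LPre G, P.Ker (derivedSeries G n) → ∃ φ : G →* Multiplicative ℝ, φ ≠ 1 := by
  induction n with
  | zero =>
    intro P hP
    exfalso
    obtain ⟨x, y, hxy⟩ := P.nontriv
    apply hxy
    have h1 : x * y⁻¹ ∈ derivedSeries G 0 := by rw [derivedSeries_zero]; trivial
    have := hP _ h1 y
    rwa [inv_mul_cancel_right] at this
  | succ n ih =>
    intro P hP
    have hAn : (derivedSeries G n).Normal := derivedSeries_normal G n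
    have hAA : P.Ker ⁅derivedSeries G n, derivedSeries G n⁆ := hP
    by_cases h1 : ∀ a ∈ derivedSeries G n, ∃ x, ∀ k : ℕ, ¬ P.le x (a ^ k)
    · obtain ⟨Q, hQ⟩ := P.case1 hAA hS hgen hAn h1
      exact ih Q hQ
    · push Not at h1
      obtain ⟨a, ha, hup⟩ := h1
      by_cases h2 : ∀ x, ∃ k : ℕ, P.le ((a ^ k)⁻¹) x
      · let s : Setup G := ⟨P, derivedSeries G n, hAA, a, ha, hup, h2⟩
        apply s.final hAn
        cases n with
        | zero => left; exact derivedSeries_zero G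
        | succ m => right; exact ⟨derivedSeries G m, rfl⟩
      · push Not at h2
        obtain ⟨x₀, hx₀⟩ := h2
        obtain ⟨Q, hQ⟩ := P.case2 hAA hS hgen hAn ha hup hx₀
        exact ih Q hQ

end Pool.Agent.Sro
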