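import Pool.Agent.Sro.B
import Pool.Agent.Sro.C3

set_option autoImplicit false

namespace Pool.Agent.Sro

universe u

/-- A nontrivial soluble right-ordered group has infinite abelianization. -/
theorem main (G : Type u) [Group G] [LinearOrder G] [Nontrivial G] [Group.IsSolvable G]
    (hord : ∀ a b c : G, a ≤ b → a * c ≤ b * c) : ¬ Finite (Abelianization G) := by
  intro hfin
  obtain ⟨P, hfg, hne, hhom⟩ := exists_fg_no_hom (G := G)
  have hfgP : Group.FG P := (Group.fg_iff_subgroup_fg P).mpr hfg
  obtain ⟨S, hgen, hS⟩ := Group.fg_iff.mp hfgP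
  obtain ⟨x, hx, hx1⟩ : ∃ x : G, x ∈ P ∧ x ≠ 1 := by
    obtain ⟨a, h⟩ := P.ne_bot_iff_exists_ne_one.mp hne
    exact ⟨(a : G), a.2, fun h2 => h (Subtype.ext h2)⟩
  let Q : LPre P :=
    { le := fun x y => (x : G)⁻¹ ≤ (y : G)⁻¹
      trans := fun h1 h2 => le_trans h1 h2
      total := fun x y => le_total _ _
      left := by
        intro g x y h
        have := hord _ _ ((g : G)⁻¹) h
        simpa [mul_inv_rev] using this
      nontriv := by
        rcases lt_or_gt_of_ne hx1 with h | h
        · -- x < 1
          refine ⟨⟨x, hx⟩, 1, ?_⟩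
          intro h2
          have h3 : x⁻¹ ≤ 1 := by simpa using h2
          have h4 := hord _ _ x h3
          rw [inv_mul_cancel, one_mul] at h4
          exact absurd h (not_lt.mpr h4)
        · refine ⟨1, ⟨x, hx⟩, ?_⟩
          intro h2
          have h3 : 1 ≤ x⁻¹ := by simpa using h2
          have h4 := hord _ _ x h3
          rw [inv_mul_cancel, one_mul] at h4
          exact absurd h (not_lt.mpr h4) }
  obtain ⟨n, hn⟩ := Group.IsSolvable.solvable (G := P)
  have hker : Q.Ker (derivedSeries P n) := by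
    intro a ha y
    rw [hn, Subgroup.mem_bot] at ha
    have h1 : a * y = y := by rw [ha, one_mul]
    exact h1.symm ▸ Q.refl y
  obtain ⟨φ, hφ⟩ := exists_hom hS hgen n Q hker
  exact hφ (hhom φ)

end Pool.Agent.Sro
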