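import Mathlib

set_option autoImplicit false

namespace Pool.Agent.Sro

open scoped commutatorElement

universe u

variable {G : Type u} [Group G]

/-- The subgroup generated by the conjugates `v⁻¹ t v`, `t ∈ T`, `v ∈ V`. -/
def PV (T V : Set G) : Subgroup G :=
  Subgroup.closure {x | ∃ t ∈ T, ∃ v ∈ V, x = v⁻¹ * t * v}

lemma mem_PV {T V : Set G} {t v : G} (ht : t ∈ T) (hv : v ∈ V) : v⁻¹ * t * v ∈ PV T V :=
  Subgroup.subset_closure ⟨t, ht, v, hv, rfl⟩

lemma PV_mono {T V W : Set G} (h : V ⊆ W) : PV T V ≤ PV T W := by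
  apply Subgroup.closure_mono
  rintro x ⟨t, ht, v, hv, rfl⟩
  exact ⟨t, ht, v, h hv, rfl⟩

/-- If all generators of `PV T V` are conjugated into `N` by `e`, so is everything. -/
lemma conj_PV_le {T V : Set G} {N : Subgroup G} {e : G}
    (h : ∀ t ∈ T, ∀ v ∈ V, e⁻¹ * (v⁻¹ * t * v) * e ∈ N) {x : G} (hx : x ∈ PV T V) :
    e⁻¹ * x * e ∈ N := by
  have hle : PV T V ≤ N.comap (MulAut.conj e⁻¹).toMonoidHom := by
    unfold PV
    rw [Subgroup.closure_le]
    rintro y ⟨t, ht, v, hv, rfl⟩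
    have := h t ht v hv
    simpa [Subgroup.mem_comap, MulAut.conj_apply] using this
  have := hle hx
  simpa [Subgroup.mem_comap, MulAut.conj_apply] using this

lemma PV_univ {T : Set G} (hT : Subgroup.normalClosure T = ⊤) : PV T Set.univ = ⊤ := by
  rw [eq_top_iff, ← hT]
  have hn : (PV T Set.univ).Normal := by
    constructor
    intro n hn g
    have := conj_PV_le (T := T) (V := Set.univ) (N := PV T Set.univ) (e := g⁻¹) (x := n) ?_ hn
    · simpa using this
    · intro t ht v _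
      have h2 := mem_PV (T := T) (V := Set.univ) ht (Set.mem_univ (v * g⁻¹))
      have h3 : (v * g⁻¹)⁻¹ * t * (v * g⁻¹) = g⁻¹⁻¹ * (v⁻¹ * t * v) * g⁻¹ := by group
      rw [← h3]; exact h2
  apply Subgroup.normalClosure_le_normal
  intro t ht
  have := mem_PV (T := T) (V := Set.univ) ht (Set.mem_univ 1)
  simpa using this

/-- Every element lies in `PV T F` for a finite `F`. -/
lemma exists_finite {T : Set G} (hT : Subgroup.normalClosure T = ⊤) (g : G) :
    ∃ F : Set G, F.Finite ∧ g ∈ PV T F := by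
  have hg : g ∈ PV T Set.univ := by rw [PV_univ hT]; trivial
  unfold PV at hg
  refine Subgroup.closure_induction (p := fun g _ => ∃ F : Set G, F.Finite ∧ g ∈ PV T F)
    ?_ ?_ ?_ ?_ hg
  · rintro x ⟨t, ht, v, _, rfl⟩
    exact ⟨{v}, Set.finite_singleton v, mem_PV ht rfl⟩
  · exact ⟨∅, Set.finite_empty, one_mem _⟩
  · rintro x y _ _ ⟨F, hF, hx⟩ ⟨F', hF', hy⟩
    exact ⟨F ∪ F', hF.union hF', mul_mem (PV_mono Set.subset_union_left hx)
      (PV_mono Set.subset_union_right hy)⟩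
  · rintro x _ ⟨F, hF, hx⟩
    exact ⟨F, hF, inv_mem hx⟩

lemma exists_finite_set {T : Set G} (hT : Subgroup.normalClosure T = ⊤) {S : Set G}
    (hS : S.Finite) : ∃ F : Set G, F.Finite ∧ ∀ g ∈ S, g ∈ PV T F := by
  refine Set.Finite.induction_on S hS ⟨∅, Set.finite_empty, by simp⟩ ?_
  rintro a s _ _ ⟨F, hF, h⟩
  obtain ⟨F', hF', ha⟩ := exists_finite hT a
  refine ⟨F ∪ F', hF.union hF', ?_⟩
  rintro g (rfl | hg)
  · exact PV_mono Set.subset_union_right ha
  · exact PV_mono Set.subset_union_left (h g hg)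

/-- The key lemma. -/
theorem key {T : Set G} (hT : Subgroup.normalClosure T = ⊤) (n : ℕ) :
    ∀ F : Set G, F.Finite → ∃ V : Set G, V.Finite ∧ V.Nonempty ∧
      ∀ f ∈ F, ∀ v ∈ V, ∀ t ∈ T, (f * v)⁻¹ * t * (f * v) ∈ PV T V ⊔ derivedSeries G n := by
  induction n with
  | zero =>
    intro F _
    refine ⟨{1}, Set.finite_singleton 1, Set.singleton_nonempty 1, ?_⟩
    intro f _ v _ t _
    simp [derivedSeries_zero]
  | succ n ih =>
    intro F hF
    obtain ⟨F', hF', hFF'⟩ := exists_finite_set hT hF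
    obtain ⟨V, hV, hVne, hVF⟩ := ih F' hF'
    set C := derivedSeries G n with hC
    have hD : derivedSeries G (n + 1) = ⁅C, C⁆ := rfl
    set D := derivedSeries G (n + 1) with hDdef
    have hCn : C.Normal := derivedSeries_normal G n
    have hDn : D.Normal := derivedSeries_normal G (n + 1)
    -- (1)
    have h1 : ∀ f ∈ F, ∀ v ∈ V, ∃ p ∈ PV T V, ∃ c ∈ C, p * c = v⁻¹ * f * v := by
      intro f hf v hv
      have : v⁻¹ * f * v ∈ PV T V ⊔ C := by
        refine conj_PV_le (T := T) (V := F') ?_ (hFF' f hf)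
        intro t ht f' hf'
        have := hVF f' hf' v hv t ht
        have h3 : (f' * v)⁻¹ * t * (f' * v) = v⁻¹ * (f'⁻¹ * t * f') * v := by group
        rw [← h3]; exact this
      exact Subgroup.mem_sup_of_normal_right.mp this
    choose! p hp c hc hpc using h1
    let E : Set G := Set.image2 c F V
    have hE : E.Finite := hF.image2 c hV
    have hEC : ∀ e ∈ E, e ∈ C := by
      rintro e ⟨f, hf, v, hv, rfl⟩
      exact hc f hf v hv
    let V' : Set G := V ∪ Set.image2 (fun v e => v * e) V E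
    have hV' : V'.Finite := hV.union (hV.image2 _ hE)
    have hVV' : V ⊆ V' := Set.subset_union_left
    have hVE : ∀ v ∈ V, ∀ e ∈ E, v * e ∈ V' := fun v hv e he => Or.inr ⟨v, hv, e, he, rfl⟩
    -- (3)
    have h3 : ∀ e ∈ E, ∀ x ∈ PV T V', e⁻¹ * x * e ∈ PV T V' ⊔ D := by
      intro e he x hx
      refine conj_PV_le (T := T) (V := V') ?_ hx
      rintro t ht v' (hv | ⟨v, hv, e', he', rfl⟩)
      · have h := mem_PV (T := T) ht (hVE v' hv e he)
        have h4 : (v' * e)⁻¹ * t * (v' * e) = e⁻¹ * (v'⁻¹ * t * v') * e := by group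
        rw [← h4]
        exact Subgroup.mem_sup_left h
      · have hq1 : v⁻¹ * t * v ∈ PV T V' := mem_PV ht (hVV' hv)
        have hq2 : (v * e')⁻¹ * t * (v * e') ∈ PV T V' := mem_PV ht (hVE v hv e' he')
        have hq3 : (v * e)⁻¹ * t * (v * e) ∈ PV T V' := mem_PV ht (hVE v hv e he)
        set q := v⁻¹ * t * v with hq
        have hq2' : e'⁻¹ * q * e' ∈ PV T V' := by
          have : e'⁻¹ * q * e' = (v * e')⁻¹ * t * (v * e') := by rw [hq]; group
          rw [this]; exact hq2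
        have hkM : q⁻¹ * (e'⁻¹ * q * e') ∈ PV T V' := mul_mem (inv_mem hq1) hq2'
        have hkC : q⁻¹ * (e'⁻¹ * q * e') ∈ C := by
          have h5 : q⁻¹ * (e'⁻¹ * q * e') = (q⁻¹ * e'⁻¹ * q⁻¹⁻¹) * e' := by group
          rw [h5]
          exact mul_mem (hCn.conj_mem _ (inv_mem (hEC e' he')) _) (hEC e' he')
        set k := q⁻¹ * (e'⁻¹ * q * e') with hk
        have h6 : e⁻¹ * ((v * e')⁻¹ * t * (v * e')) * e
            = ((v * e)⁻¹ * t * (v * e)) * (k * ⁅k⁻¹, e⁻¹⁆) := by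
          rw [hk, hq, commutatorElement_def]; group
        rw [h6]
        refine mul_mem (Subgroup.mem_sup_left hq3) (mul_mem (Subgroup.mem_sup_left hkM) ?_)
        apply Subgroup.mem_sup_right
        rw [hD]
        exact Subgroup.commutator_mem_commutator (inv_mem hkC) (inv_mem (hEC e he))
    -- (4)
    have h4 : ∀ e ∈ E, ∀ x ∈ PV T V' ⊔ D, e⁻¹ * x * e ∈ PV T V' ⊔ D := by
      intro e he x hx
      obtain ⟨y, hy, d, hd, rfl⟩ := Subgroup.mem_sup_of_normal_right.mp hx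
      have h5 : e⁻¹ * (y * d) * e = (e⁻¹ * y * e) * (e⁻¹ * d * e⁻¹⁻¹) := by group
      rw [h5]
      exact mul_mem (h3 e he y hy) (Subgroup.mem_sup_right (hDn.conj_mem _ hd _))
    -- (5)
    have h5 : ∀ f ∈ F, ∀ v ∈ V, ∀ t ∈ T, (f * v)⁻¹ * t * (f * v) ∈ PV T V' ⊔ D := by
      intro f hf v hv t ht
      have h6 : (f * v)⁻¹ * t * (f * v)
          = (c f v)⁻¹ * ((p f v)⁻¹ * (v⁻¹ * t * v) * (p f v)) * (c f v) := by
        have h7 : (f * v)⁻¹ * t * (f * v)
            = (v⁻¹ * f * v)⁻¹ * (v⁻¹ * t * v) * (v⁻¹ * f * v) := by group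
        rw [h7, ← hpc f hf v hv]; group
      rw [h6]
      apply h4 (c f v) ⟨f, hf, v, hv, rfl⟩
      apply Subgroup.mem_sup_left
      apply PV_mono hVV'
      exact mul_mem (mul_mem (inv_mem (hp f hf v hv)) (mem_PV ht hv)) (hp f hf v hv)
    refine ⟨V', hV', hVne.mono hVV', ?_⟩
    rintro f hf v' (hv | ⟨v, hv, e, he, rfl⟩) t ht
    · exact h5 f hf v' hv t ht
    · have h8 : (f * (v * e))⁻¹ * t * (f * (v * e)) = e⁻¹ * ((f * v)⁻¹ * t * (f * v)) * e := by
        group
      show (f * (v * e))⁻¹ * t * (f * (v * e)) ∈ PV T V' ⊔ D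
      rw [h8]
      exact h4 e he _ (h5 f hf v hv t ht)

end Pool.Agent.Sro
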