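import Pool.Agent.Sro.A

set_option autoImplicit false

namespace Pool.Agent.Sro

open scoped commutatorElement

universe u

variable {G : Type u} [Group G]

/-- An element of the commutator subgroup involves only finitely many conjugators. -/
lemma comm_finite {T : Set G} (hT : Subgroup.normalClosure T = ⊤) {x : G}
    (hx : x ∈ commutator G) :
    ∃ F : Set G, F.Finite ∧ ∀ P : Subgroup G, ∀ v : G,
      (∀ f ∈ F, ∀ t ∈ T, (f * v)⁻¹ * t * (f * v) ∈ P) → v⁻¹ * x * v ∈ ⁅P, P⁆ := by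
  rw [commutator_eq_closure] at hx
  refine Subgroup.closure_induction (p := fun x _ => ∃ F : Set G, F.Finite ∧
    ∀ P : Subgroup G, ∀ v : G,
      (∀ f ∈ F, ∀ t ∈ T, (f * v)⁻¹ * t * (f * v) ∈ P) → v⁻¹ * x * v ∈ ⁅P, P⁆) ?_ ?_ ?_ ?_ hx
  · rintro x ⟨y, z, rfl⟩
    obtain ⟨F, hF, hy⟩ := exists_finite hT y
    obtain ⟨F', hF', hz⟩ := exists_finite hT z
    refine ⟨F ∪ F', hF.union hF', ?_⟩
    intro P v h
    have key : ∀ y : G, y ∈ PV T (F ∪ F') → v⁻¹ * y * v ∈ P := by
      intro y hy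
      refine conj_PV_le (T := T) (V := F ∪ F') ?_ hy
      intro t ht f hf
      have := h f hf t ht
      have h3 : (f * v)⁻¹ * t * (f * v) = v⁻¹ * (f⁻¹ * t * f) * v := by group
      rw [← h3]; exact this
    have hy' := key y (PV_mono Set.subset_union_left hy)
    have hz' := key z (PV_mono Set.subset_union_right hz)
    have : v⁻¹ * ⁅y, z⁆ * v = ⁅v⁻¹ * y * v, v⁻¹ * z * v⁆ := by
      simp only [commutatorElement_def]; group
    rw [this]
    exact Subgroup.commutator_mem_commutator hy' hz'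
  · refine ⟨∅, Set.finite_empty, ?_⟩
    intro P v _
    have : v⁻¹ * 1 * v = 1 := by group
    rw [this]; exact one_mem _
  · rintro x y _ _ ⟨F, hF, hx⟩ ⟨F', hF', hy⟩
    refine ⟨F ∪ F', hF.union hF', ?_⟩
    intro P v h
    have h1 := hx P v (fun f hf t ht => h f (Or.inl hf) t ht)
    have h2 := hy P v (fun f hf t ht => h f (Or.inr hf) t ht)
    have : v⁻¹ * (x * y) * v = (v⁻¹ * x * v) * (v⁻¹ * y * v) := by group
    rw [this]; exact mul_mem h1 h2
  · rintro x _ ⟨F, hF, hx⟩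
    refine ⟨F, hF, ?_⟩
    intro P v h
    have h1 := hx P v h
    have : v⁻¹ * x⁻¹ * v = (v⁻¹ * x * v)⁻¹ := by group
    rw [this]; exact inv_mem h1

lemma comm_finite_set {T : Set G} (hT : Subgroup.normalClosure T = ⊤) {S : Set G}
    (hS : S.Finite) (hSc : ∀ x ∈ S, x ∈ commutator G) :
    ∃ F : Set G, F.Finite ∧ ∀ P : Subgroup G, ∀ v : G,
      (∀ f ∈ F, ∀ t ∈ T, (f * v)⁻¹ * t * (f * v) ∈ P) → ∀ x ∈ S, v⁻¹ * x * v ∈ ⁅P, P⁆ := by
  revert hSc
  refine Set.Finite.induction_on S hS ?_ ?_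
  · intro _
    exact ⟨∅, Set.finite_empty, by simp⟩
  · rintro a s _ _ ih hSc
    obtain ⟨F, hF, h⟩ := ih (fun x hx => hSc x (Or.inr hx))
    obtain ⟨F', hF', h'⟩ := comm_finite hT (hSc a (Or.inl rfl))
    refine ⟨F ∪ F', hF.union hF', ?_⟩
    intro P v hP x hx
    rcases hx with rfl | hx
    · exact h' P v (fun f hf t ht => hP f (Or.inr hf) t ht)
    · exact h P v (fun f hf t ht => hP f (Or.inl hf) t ht) x hx

/-- A homomorphism from `P` to a commutative group kills `⁅P, P⁆`. -/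
lemma hom_commutator {A : Type*} [CommGroup A] (P : Subgroup G) (φ : P →* A) {x : G}
    (hx : x ∈ ⁅P, P⁆) : ∃ h : x ∈ P, φ ⟨x, h⟩ = 1 := by
  have hle : ⁅P, P⁆ ≤ (φ.ker).map P.subtype := by
    rw [Subgroup.commutator_le]
    intro g₁ h₁ g₂ h₂
    refine ⟨⁅(⟨g₁, h₁⟩ : P), ⟨g₂, h₂⟩⁆, ?_, ?_⟩
    · show φ _ = 1
      rw [map_commutatorElement, commutatorElement_eq_one_iff_mul_comm]
      exact mul_comm _ _
    · simp [commutatorElement_def]
  obtain ⟨y, hy, rfl⟩ := hle hx
  exact ⟨y.2, hy⟩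

/-- If the images of `T` cover the abelianization of a soluble group, then the normal closure of
`T` is the whole group. -/
lemma normalClosure_eq_top [Group.IsSolvable G] {T : Set G}
    (hT : ∀ g : G, ∃ t ∈ T, ∃ c ∈ commutator G, g = t * c) :
    Subgroup.normalClosure T = ⊤ := by
  by_contra hne
  set N := Subgroup.normalClosure T with hN
  have hnt : Nontrivial (G ⧸ N) := by
    exact (QuotientGroup.nontrivial_iff).mpr hne
  have hs : Group.IsSolvable (G ⧸ N) := inferInstance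
  have hlt := Group.IsSolvable.commutator_lt_top_of_nontrivial (G ⧸ N)
  apply hlt.ne
  rw [eq_top_iff]
  intro x _
  obtain ⟨g, rfl⟩ := QuotientGroup.mk'_surjective N x
  obtain ⟨t, ht, c, hc, rfl⟩ := hT g
  have ht1 : (QuotientGroup.mk' N) t = 1 := by
    rw [QuotientGroup.mk'_apply, QuotientGroup.eq_one_iff]
    exact Subgroup.subset_normalClosure ht
  rw [map_mul, ht1, one_mul]
  have : (commutator G).map (QuotientGroup.mk' N) ≤ commutator (G ⧸ N) := by
    rw [commutator_def, commutator_def, Subgroup.map_commutator]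
    exact Subgroup.commutator_mono le_top le_top
  exact this ⟨c, hc, rfl⟩

theorem exists_fg_no_hom [Group.IsSolvable G] [Nontrivial G] [Finite (Abelianization G)] :
    ∃ P : Subgroup G, P.FG ∧ P ≠ ⊥ ∧ ∀ φ : P →* Multiplicative ℝ, φ = 1 := by
  classical
  -- lifts of all elements of the abelianization
  have hsurj : Function.Surjective (Abelianization.of : G →* Abelianization G) :=
    QuotientGroup.mk'_surjective _
  let s : Abelianization G → G := Function.surjInv hsurj
  have hs : ∀ a, Abelianization.of (s a) = a := Function.surjInv_eq hsurj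
  let T : Set G := Set.range s
  have hTf : T.Finite := Set.finite_range s
  have hT : Subgroup.normalClosure T = ⊤ := by
    apply normalClosure_eq_top
    intro g
    refine ⟨s (Abelianization.of g), ⟨_, rfl⟩, (s (Abelianization.of g))⁻¹ * g, ?_, by group⟩
    rw [← Abelianization.ker_of, MonoidHom.mem_ker, map_mul, map_inv, hs]
    group
  set m := Nat.card (Abelianization G) with hm
  have hm0 : m ≠ 0 := Nat.card_pos.ne'
  have hTm : ∀ x ∈ (fun t => t ^ m) '' T, x ∈ commutator G := by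
    rintro x ⟨t, _, rfl⟩
    rw [← Abelianization.ker_of, MonoidHom.mem_ker, map_pow]
    exact pow_card_eq_one'
  obtain ⟨F, hF, hFc⟩ := comm_finite_set hT (hTf.image _) hTm
  obtain ⟨n, hn⟩ := Group.IsSolvable.solvable (G := G)
  obtain ⟨V, hV, hVne, hVF⟩ := key hT n F hF
  have hVF' : ∀ f ∈ F, ∀ v ∈ V, ∀ t ∈ T, (f * v)⁻¹ * t * (f * v) ∈ PV T V := by
    intro f hf v hv t ht
    have := hVF f hf v hv t ht
    rwa [hn, sup_bot_eq] at this
  refine ⟨PV T V, ?_, ?_, ?_⟩
  · rw [Subgroup.fg_iff]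
    refine ⟨_, rfl, ?_⟩
    have : {x : G | ∃ t ∈ T, ∃ v ∈ V, x = v⁻¹ * t * v} = Set.image2 (fun t v => v⁻¹ * t * v) T V := by
      ext x
      constructor
      · rintro ⟨t, ht, v, hv, rfl⟩
        exact ⟨t, ht, v, hv, rfl⟩
      · rintro ⟨t, ht, v, hv, rfl⟩
        exact ⟨t, ht, v, hv, rfl⟩
    rw [this]
    exact hTf.image2 _ hV
  · intro hbot
    obtain ⟨v, hv⟩ := hVne
    have hT1 : T ⊆ {1} := by
      intro t ht
      have := mem_PV (T := T) ht hv
      rw [hbot, Subgroup.mem_bot] at this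
      have h2 : t = v * (v⁻¹ * t * v) * v⁻¹ := by group
      rw [this] at h2
      simp only [Set.mem_singleton_iff]
      rw [h2]; group
    have : Subgroup.normalClosure T ≤ ⊥ := by
      apply Subgroup.normalClosure_le_normal
      intro t ht
      exact hT1 ht
    rw [hT, top_le_iff] at this
    exact absurd this bot_ne_top
  · intro φ
    have hgen : ∀ t (ht : t ∈ T), ∀ v (hv : v ∈ V), φ ⟨v⁻¹ * t * v, mem_PV ht hv⟩ = 1 := by
      intro t ht v hv
      have h1 := hFc (PV T V) v (fun f hf t ht => hVF' f hf v hv t ht) (t ^ m) ⟨t, ht, rfl⟩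
      obtain ⟨h2, h3⟩ := hom_commutator (PV T V) φ h1
      have h4 : (⟨v⁻¹ * t ^ m * v, h2⟩ : PV T V) = (⟨v⁻¹ * t * v, mem_PV ht hv⟩ : PV T V) ^ m := by
        apply Subtype.ext
        simp only [SubmonoidClass.coe_pow]
        have := conj_pow (i := m) (a := v⁻¹) (b := t)
        simp only [inv_inv] at this
        exact this.symm
      rw [h4, map_pow] at h3
      exact (pow_eq_one_iff_left hm0).mp h3
    ext x
    obtain ⟨x, hx⟩ := x
    have : ∃ h : x ∈ PV T V, φ ⟨x, h⟩ = 1 := by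
      unfold PV at hx
      refine Subgroup.closure_induction (p := fun x _ => ∃ h : x ∈ PV T V, φ ⟨x, h⟩ = 1)
        ?_ ?_ ?_ ?_ hx
      · rintro x ⟨t, ht, v, hv, rfl⟩
        exact ⟨mem_PV ht hv, hgen t ht v hv⟩
      · exact ⟨one_mem _, map_one φ⟩
      · rintro x y _ _ ⟨h1, h2⟩ ⟨h3, h4⟩
        refine ⟨mul_mem h1 h3, ?_⟩
        have : (⟨x * y, mul_mem h1 h3⟩ : PV T V) = ⟨x, h1⟩ * ⟨y, h3⟩ := rfl
        rw [this, map_mul, h2, h4, one_mul]
      · rintro x _ ⟨h1, h2⟩
        refine ⟨inv_mem h1, ?_⟩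
        have : (⟨x⁻¹, inv_mem h1⟩ : PV T V) = ⟨x, h1⟩⁻¹ := rfl
        rw [this, map_inv, h2, inv_one]
    obtain ⟨h, h1⟩ := this
    rw [h1]; rfl

end Pool.Agent.Sro
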