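import Mathlib

set_option autoImplicit false

namespace Pool.Agent.Sro

open scoped commutatorElement
open Filter

universe u w

/-- A nontrivial left-invariant total preorder on a group. -/
structure LPre (G : Type u) [Group G] where
  le : G → G → Prop
  trans : ∀ {x y z}, le x y → le y z → le x z
  total : ∀ x y, le x y ∨ le y x
  left : ∀ g {x y}, le x y → le (g * x) (g * y)
  nontriv : ∃ x y, ¬ le x y

variable {G : Type u} [Group G]

namespace LPre

variable (P : LPre G)

lemma refl (x : G) : P.le x x := (P.total x x).elim id id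

/-- `A` acts trivially on the preorder. -/
def Ker (A : Subgroup G) : Prop := ∀ a ∈ A, ∀ x, P.le (a * x) x

lemma Ker.symm {P : LPre G} {A : Subgroup G} (h : P.Ker A) {a : G} (ha : a ∈ A) (x : G) :
    P.le x (a * x) := by
  have := h a⁻¹ (inv_mem ha) (a * x)
  rwa [inv_mul_cancel_left] at this

lemma left_iff (g : G) {x y : G} : P.le (g * x) (g * y) ↔ P.le x y := by
  refine ⟨fun h => ?_, P.left g⟩
  have := P.left g⁻¹ h
  rwa [inv_mul_cancel_left, inv_mul_cancel_left] at this

lemma lt_le {x y : G} (h : ¬ P.le x y) : P.le y x := (P.total x y).resolve_left h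

/-- New preorders from families of lower sets along an ultrafilter. -/
theorem new {S : Set G} (hS : S.Finite) (hgen : Subgroup.closure S = ⊤)
    {ι : Type w} (U : Ultrafilter ι) (L : ι → Set G)
    (hlow : ∀ i x y, P.le y x → x ∈ L i → y ∈ L i)
    (hne : ∀ i, (L i).Nonempty) (hproper : ∀ i, ∃ x, x ∉ L i)
    (A : Subgroup G) (hAn : A.Normal)
    (hA : ∀ a ∈ A, ∀ᶠ i in (U : Filter ι), ∀ z ∈ L i, a * z ∈ L i) :
    ∃ Q : LPre G, Q.Ker A := by
  -- nontriviality for each index
  have hstep : ∀ i, ∃ s ∈ S, (∃ z ∈ L i, s * z ∉ L i) ∨ (∃ z ∈ L i, s⁻¹ * z ∉ L i) := by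
    intro i
    by_contra hcon
    push Not at hcon
    let H : Subgroup G :=
      { carrier := {g | (∀ z ∈ L i, g * z ∈ L i) ∧ (∀ z ∈ L i, g⁻¹ * z ∈ L i)}
        mul_mem' := by
          rintro a b ⟨ha, ha'⟩ ⟨hb, hb'⟩
          refine ⟨fun z hz => ?_, fun z hz => ?_⟩
          · rw [mul_assoc]; exact ha _ (hb _ hz)
          · rw [mul_inv_rev, mul_assoc]; exact hb' _ (ha' _ hz)
        one_mem' := by simp
        inv_mem' := by
          rintro a ⟨ha, ha'⟩
          refine ⟨ha', fun z hz => ?_⟩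
          rw [inv_inv]; exact ha z hz }
    have hH : H = ⊤ := by
      rw [eq_top_iff, ← hgen, Subgroup.closure_le]
      intro s hs
      exact hcon s hs
    obtain ⟨z, hz⟩ := hne i
    obtain ⟨x, hx⟩ := hproper i
    have : x * z⁻¹ ∈ H := by rw [hH]; trivial
    apply hx
    have h2 := this.1 z hz
    rwa [inv_mul_cancel_right] at h2
  have hex : ∃ s ∈ S, ∀ᶠ i in (U : Filter ι),
      ((∃ z ∈ L i, s * z ∉ L i) ∨ (∃ z ∈ L i, s⁻¹ * z ∉ L i)) := by
    have h1 : (⋃ s ∈ S, {i | (∃ z ∈ L i, s * z ∉ L i) ∨ (∃ z ∈ L i, s⁻¹ * z ∉ L i)}) ∈ U := by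
      have : (⋃ s ∈ S, {i | (∃ z ∈ L i, s * z ∉ L i) ∨ (∃ z ∈ L i, s⁻¹ * z ∉ L i)})
          = Set.univ := by
        ext i
        simp only [Set.mem_iUnion, Set.mem_ofPred_eq, Set.mem_univ, iff_true]
        obtain ⟨s, hs, h⟩ := hstep i
        exact ⟨s, hs, h⟩
      rw [this]; exact univ_mem
    obtain ⟨s, hs, h⟩ := (Ultrafilter.finite_biUnion_mem_iff hS).mp h1
    exact ⟨s, hs, h⟩
  let Q : LPre G :=
    { le := fun x y => ∀ᶠ i in (U : Filter ι), ∀ z ∈ L i, y⁻¹ * x * z ∈ L i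
      trans := by
        intro x y z h1 h2
        filter_upwards [h1, h2] with i h1 h2 w hw
        have := h2 _ (h1 w hw)
        have e : z⁻¹ * y * (y⁻¹ * x * w) = z⁻¹ * x * w := by group
        rwa [e] at this
      total := by
        intro x y
        rw [← Ultrafilter.eventually_or]
        refine Eventually.of_forall fun i => ?_
        by_contra hcon
        push Not at hcon
        obtain ⟨⟨z, hz, hz'⟩, ⟨w, hw, hw'⟩⟩ := hcon
        rcases P.total (x⁻¹ * y * w) z with h | h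
        · exact hw' (hlow i _ _ h hz)
        · apply hz'
          refine hlow i w _ ?_ hw
          have := P.left (y⁻¹ * x) h
          have e : y⁻¹ * x * (x⁻¹ * y * w) = w := by group
          rwa [e] at this
      left := by
        intro g x y h
        filter_upwards [h] with i h z hz
        have e : (g * y)⁻¹ * (g * x) * z = y⁻¹ * x * z := by group
        rw [e]; exact h z hz
      nontriv := by
        obtain ⟨s, _, h⟩ := hex
        rw [Ultrafilter.eventually_or] at h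
        rcases h with h | h
        · refine ⟨s, 1, fun h2 => ?_⟩
          have h3 := h.and h2
          obtain ⟨i, ⟨z, hz, hz'⟩, h4⟩ := h3.exists
          apply hz'
          have := h4 z hz
          rwa [inv_one, one_mul] at this
        · refine ⟨s⁻¹, 1, fun h2 => ?_⟩
          have h3 := h.and h2
          obtain ⟨i, ⟨z, hz, hz'⟩, h4⟩ := h3.exists
          apply hz'
          have := h4 z hz
          rwa [inv_one, one_mul] at this }
  refine ⟨Q, ?_⟩
  intro a ha x
  show ∀ᶠ i in (U : Filter ι), ∀ z ∈ L i, x⁻¹ * (a * x) * z ∈ L i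
  have h1 : x⁻¹ * a * x ∈ A := by
    have := hAn.conj_mem a ha x⁻¹
    rwa [inv_inv] at this
  filter_upwards [hA _ h1] with i h z hz
  rw [← mul_assoc x⁻¹ a x]
  exact h z hz

section abel

variable {A : Subgroup G} (hAA : P.Ker ⁅A, A⁆)
include hAA

lemma swap {a b : G} (ha : a ∈ A) (hb : b ∈ A) (x : G) : P.le (a * b * x) (b * a * x) := by
  have e : a * b * x = ⁅a, b⁆ * (b * a * x) := by rw [commutatorElement_def]; group
  rw [e]
  exact hAA _ (Subgroup.commutator_mem_commutator ha hb) _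

lemma swap' {a b : G} (ha : a ∈ A) (hb : b ∈ A) : P.le (a * b) (b * a) := by
  have := P.swap hAA ha hb 1
  rwa [mul_one, mul_one] at this

lemma mul_le {a b c d : G} (hb : b ∈ A) (hd : d ∈ A)
    (h1 : P.le a b) (h2 : P.le c d) (ha : a ∈ A) : P.le (a * c) (b * d) := by
  -- a c ≤ a d ~ d a ≤ d b ~ b d
  have h3 : P.le (a * c) (a * d) := P.left a h2
  have h4 : P.le (a * d) (d * a) := P.swap' hAA ha hd
  have h5 : P.le (d * a) (d * b) := P.left d h1
  have h6 : P.le (d * b) (b * d) := P.swap' hAA hd hb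
  exact P.trans (P.trans (P.trans h3 h4) h5) h6

lemma pow_le {a b : G} (ha : a ∈ A) (hb : b ∈ A) (h : P.le a b) (n : ℕ) :
    P.le (a ^ n) (b ^ n) := by
  induction n with
  | zero => simp only [pow_zero]; exact P.refl 1
  | succ n ih =>
    rw [pow_succ, pow_succ]
    exact P.mul_le hAA (pow_mem hb n) hb ih h (pow_mem ha n)

/-- Case 1: no element of `A` is cofinal. -/
theorem case1 {S : Set G} (hS : S.Finite) (hgen : Subgroup.closure S = ⊤) (hAn : A.Normal)
    (h : ∀ a ∈ A, ∃ x, ∀ n : ℕ, ¬ P.le x (a ^ n)) : ∃ Q : LPre G, Q.Ker A := by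
  classical
  let _ : Preorder A :=
    { le := fun a b => P.le (a : G) (b : G)
      le_refl := fun a => P.refl _
      le_trans := fun a b c h1 h2 => P.trans h1 h2 }
  have : IsDirected A (· ≤ ·) := ⟨fun a b => by
    rcases P.total (a : G) (b : G) with h | h
    · exact ⟨b, h, P.refl _⟩
    · exact ⟨a, P.refl _, h⟩⟩
  have : (atTop : Filter A).NeBot := inferInstance
  let U : Ultrafilter A := Ultrafilter.of (atTop : Filter A)
  have hU : (U : Filter A) ≤ atTop := Ultrafilter.of_le _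
  refine P.new hS hgen U (fun a => {x | ∃ n : ℕ, P.le x ((a : G) ^ n)}) ?_ ?_ ?_ A hAn ?_
  · rintro i x y hyx ⟨n, hn⟩
    exact ⟨n, P.trans hyx hn⟩
  · intro i
    exact ⟨1, 0, by rw [pow_zero]; exact P.refl 1⟩
  · intro i
    obtain ⟨x, hx⟩ := h i i.2
    exact ⟨x, fun ⟨n, hn⟩ => hx n hn⟩
  · intro b hb
    have h1 : ∀ᶠ a in (atTop : Filter A), (⟨b, hb⟩ : A) ≤ a := eventually_ge_atTop _
    filter_upwards [h1.filter_mono hU] with a hba
    rintro z ⟨n, hn⟩
    refine ⟨n + 1, ?_⟩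
    have h2 : P.le (b * z) (b * (a : G) ^ n) := P.left b hn
    have h3 : P.le (b * (a : G) ^ n) ((a : G) ^ n * b) := P.swap' hAA hb (pow_mem a.2 n)
    have h4 : P.le ((a : G) ^ n * b) ((a : G) ^ n * a) := P.left _ hba
    rw [pow_succ]
    exact P.trans (P.trans h2 h3) h4

/-- Case 2: `a` is cofinal upwards but not downwards. -/
theorem case2 {S : Set G} (hS : S.Finite) (hgen : Subgroup.closure S = ⊤) (hAn : A.Normal)
    {a : G} (ha : a ∈ A) (hup : ∀ x, ∃ n : ℕ, P.le x (a ^ n))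
    {x₀ : G} (hx₀ : ∀ n : ℕ, ¬ P.le ((a ^ n)⁻¹) x₀) : ∃ Q : LPre G, Q.Ker A := by
  let U : Ultrafilter Unit := (pure () : Ultrafilter Unit)
  refine P.new hS hgen U (fun _ => {x | ∀ n : ℕ, ¬ P.le ((a ^ n)⁻¹) x}) ?_ ?_ ?_ A hAn ?_
  · intro i x y hyx hx n hn
    exact hx n (P.trans hn hyx)
  · intro i
    exact ⟨x₀, hx₀⟩
  · intro i
    refine ⟨1, fun h => h 0 ?_⟩
    rw [pow_zero, inv_one]; exact P.refl 1
  · intro b hb
    refine Eventually.of_forall fun i z hz m hm => ?_
    obtain ⟨k, hk⟩ := hup b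
    apply hz (m + k)
    -- le a^-(m+k) (b⁻¹ a^{-m}) and le (b⁻¹ a^-m) z
    have h1 : P.le (b⁻¹ * (a ^ m)⁻¹) z := by
      have := P.left b⁻¹ hm
      rwa [inv_mul_cancel_left] at this
    have h2 : P.le 1 (b⁻¹ * a ^ k) := by
      have := P.left b⁻¹ hk
      rwa [inv_mul_cancel] at this
    have h3 : P.le ((a ^ (m + k))⁻¹) ((a ^ (m + k))⁻¹ * (b⁻¹ * a ^ k)) := by
      have := P.left ((a ^ (m + k))⁻¹) h2
      rwa [mul_one] at this
    have h4 : P.le ((a ^ (m + k))⁻¹ * b⁻¹ * a ^ k) (b⁻¹ * (a ^ (m + k))⁻¹ * a ^ k) :=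
      P.swap hAA (inv_mem (pow_mem ha _)) (inv_mem hb) _
    have e : b⁻¹ * (a ^ (m + k))⁻¹ * a ^ k = b⁻¹ * (a ^ m)⁻¹ := by
      rw [pow_add]; group
    rw [e, mul_assoc] at h4
    exact P.trans (P.trans h3 h4) h1

end abel

end LPre

end Pool.Agent.Sro
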