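import Pool.Agent.Sro.C1

set_option autoImplicit false

namespace Pool.Agent.Sro

open scoped commutatorElement
open Filter Topology

universe u

variable {G : Type u} [Group G]

/-- Data of case 3: an element `a` of `A` which is cofinal in both directions. -/
structure Setup (G : Type u) [Group G] where
  P : LPre G
  A : Subgroup G
  hAA : P.Ker ⁅A, A⁆
  a : G
  ha : a ∈ A
  hup : ∀ x, ∃ n : ℕ, P.le x (a ^ n)
  hdn : ∀ x, ∃ n : ℕ, P.le ((a ^ n)⁻¹) x

namespace Setup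

variable (s : Setup G)

lemma not_le_one : ¬ s.P.le s.a 1 := by
  intro h
  obtain ⟨x, y, hxy⟩ := s.P.nontriv
  apply hxy
  have hpow : ∀ n : ℕ, s.P.le (s.a ^ n) 1 := by
    intro n
    induction n with
    | zero => rw [pow_zero]; exact s.P.refl 1
    | succ n ih =>
      rw [pow_succ]
      have := s.P.left (s.a ^ n) h
      rw [mul_one] at this
      exact s.P.trans this ih
  obtain ⟨n, hn⟩ := s.hup (y⁻¹ * x)
  have h1 := s.P.trans hn (hpow n)
  have h2 := s.P.left y h1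
  rwa [mul_inv_cancel_left, mul_one] at h2

lemma one_le : s.P.le 1 s.a := s.P.lt_le s.not_le_one

lemma zpow_succ_le (j : ℤ) : s.P.le (s.a ^ j) (s.a ^ (j + 1)) := by
  have := s.P.left (s.a ^ j) s.one_le
  rwa [mul_one, ← zpow_add_one] at this

lemma zpow_le_add (j : ℤ) (n : ℕ) : s.P.le (s.a ^ j) (s.a ^ (j + n)) := by
  induction n with
  | zero => simp only [Nat.cast_zero, add_zero]; exact s.P.refl _
  | succ n ih =>
    have := s.zpow_succ_le (j + n)
    push_cast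
    rw [← add_assoc]
    exact s.P.trans ih this

lemma zpow_le {j k : ℤ} (h : j ≤ k) : s.P.le (s.a ^ j) (s.a ^ k) := by
  obtain ⟨n, rfl⟩ := Int.le.dest h
  exact s.zpow_le_add j n

lemma zpow_not_le {j k : ℤ} (h : j < k) : ¬ s.P.le (s.a ^ k) (s.a ^ j) := by
  intro h1
  have h2 : s.P.le (s.a ^ (j + 1)) (s.a ^ j) := s.P.trans (s.zpow_le (by omega)) h1
  have h3 := s.P.left (s.a ^ (-j)) h2
  rw [← zpow_add, ← zpow_add] at h3
  have e1 : -j + (j + 1) = 1 := by ring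
  have e2 : -j + j = 0 := by ring
  rw [e1, e2, zpow_one, zpow_zero] at h3
  exact s.not_le_one h3

lemma le_of_zpow_le {j k : ℤ} (h : s.P.le (s.a ^ j) (s.a ^ k)) : j ≤ k := by
  by_contra hcon
  exact s.zpow_not_le (not_le.mp hcon) h

lemma exists_height (g : G) : ∃ k : ℤ, s.P.le (s.a ^ k) g ∧ ∀ z : ℤ, s.P.le (s.a ^ z) g → z ≤ k := by
  apply Int.exists_greatest_of_bdd
  · obtain ⟨n, hn⟩ := s.hup g
    refine ⟨n, fun z hz => ?_⟩
    apply s.le_of_zpow_le
    rw [zpow_natCast]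
    exact s.P.trans hz hn
  · obtain ⟨n, hn⟩ := s.hdn g
    refine ⟨-n, ?_⟩
    rw [zpow_neg, zpow_natCast]
    exact hn

/-- The greatest `k` with `a ^ k ≤ g`. -/
noncomputable def h (g : G) : ℤ := Classical.choose (s.exists_height g)

lemma h_le (g : G) : s.P.le (s.a ^ s.h g) g := (Classical.choose_spec (s.exists_height g)).1

lemma le_h {g : G} {z : ℤ} (hz : s.P.le (s.a ^ z) g) : z ≤ s.h g :=
  (Classical.choose_spec (s.exists_height g)).2 z hz

lemma le_succ (g : G) : s.P.le g (s.a ^ (s.h g + 1)) := by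
  apply s.P.lt_le
  intro hcon
  have := s.le_h hcon
  omega

lemma h_mono {x y : G} (hxy : s.P.le x y) : s.h x ≤ s.h y :=
  s.le_h (s.P.trans (s.h_le x) hxy)

lemma h_zpow (j : ℤ) : s.h (s.a ^ j) = j := by
  apply le_antisymm
  · exact s.le_of_zpow_le (s.h_le _)
  · exact s.le_h (s.P.refl _)

lemma zpow_mem' (j : ℤ) : s.a ^ j ∈ s.A := zpow_mem s.ha j

lemma h_mul_ge {b c : G} (hb : b ∈ s.A) (hc : c ∈ s.A) : s.h b + s.h c ≤ s.h (b * c) := by
  apply s.le_h
  rw [zpow_add]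
  exact s.P.mul_le s.hAA hb hc (s.h_le b) (s.h_le c) (s.zpow_mem' _)

lemma h_mul_le {b c : G} (hb : b ∈ s.A) : s.h (b * c) ≤ s.h b + s.h c + 2 := by
  apply s.le_of_zpow_le
  have e : s.h b + s.h c + 2 = (s.h b + 1) + (s.h c + 1) := by ring
  rw [e, zpow_add]
  refine s.P.trans (s.h_le _) ?_
  exact s.P.mul_le s.hAA (s.zpow_mem' _) (s.zpow_mem' _) (s.le_succ b) (s.le_succ c) hb

lemma h_pow_le {b : G} (hb : b ∈ s.A) (n : ℕ) : s.h (b ^ n) ≤ n * (s.h b + 1) := by
  apply s.le_of_zpow_le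
  refine s.P.trans (s.h_le _) ?_
  have := s.P.pow_le s.hAA hb (s.zpow_mem' _) (s.le_succ b) n
  rwa [← zpow_natCast (s.a ^ (s.h b + 1)) n, ← zpow_mul, mul_comm (s.h b + 1)] at this

lemma subadd {b : G} (hb : b ∈ s.A) : Subadditive (fun n : ℕ => -(s.h (b ^ n) : ℝ)) := by
  intro m n
  have := s.h_mul_ge (pow_mem hb m) (pow_mem hb n)
  rw [← pow_add] at this
  have h2 : ((s.h (b ^ m) + s.h (b ^ n) : ℤ) : ℝ) ≤ (s.h (b ^ (m + n)) : ℤ) := by exact_mod_cast this
  push_cast at h2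
  linarith

lemma bdd {b : G} (hb : b ∈ s.A) :
    BddBelow (Set.range fun n : ℕ => -(s.h (b ^ n) : ℝ) / n) := by
  refine ⟨-|(s.h b : ℝ) + 1|, ?_⟩
  rintro x ⟨n, rfl⟩
  simp only
  rcases Nat.eq_zero_or_pos n with rfl | hn
  · simp
  · have hn' : (0 : ℝ) < n := by exact_mod_cast hn
    rw [le_div_iff₀ hn']
    have h1 := s.h_pow_le hb n
    have h2 : (s.h (b ^ n) : ℝ) ≤ n * (s.h b + 1) := by exact_mod_cast h1
    have h3 : (s.h b : ℝ) + 1 ≤ |(s.h b : ℝ) + 1| := le_abs_self _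
    nlinarith

/-- The translation number. -/
noncomputable def rho (b : G) : ℝ := limUnder atTop (fun n : ℕ => (s.h (b ^ n) : ℝ) / n)

lemma tendsto_rho {b : G} (hb : b ∈ s.A) :
    Tendsto (fun n : ℕ => (s.h (b ^ n) : ℝ) / n) atTop (𝓝 (s.rho b)) := by
  apply tendsto_nhds_limUnder
  have := (s.subadd hb).tendsto_lim (s.bdd hb)
  refine ⟨-(s.subadd hb).lim, ?_⟩
  have h2 := this.neg
  refine h2.congr fun n => ?_
  ring

lemma rho_le {b c : G} (hb : b ∈ s.A) (hc : c ∈ s.A) (hbc : s.P.le b c) : s.rho b ≤ s.rho c := by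
  refine le_of_tendsto_of_tendsto' (s.tendsto_rho hb) (s.tendsto_rho hc) fun n => ?_
  have h1 := s.h_mono (s.P.pow_le s.hAA hb hc hbc n)
  have h2 : (s.h (b ^ n) : ℝ) ≤ s.h (c ^ n) := by exact_mod_cast h1
  exact div_le_div_of_nonneg_right h2 (Nat.cast_nonneg n)

lemma rho_a : s.rho s.a = 1 := by
  refine tendsto_nhds_unique (s.tendsto_rho s.ha) ?_
  refine tendsto_const_nhds.congr' ?_
  filter_upwards [eventually_gt_atTop 0] with n hn
  have : s.h (s.a ^ n) = n := by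
    rw [← zpow_natCast]; exact s.h_zpow n
  rw [this]
  have hn' : (n : ℝ) ≠ 0 := by exact_mod_cast hn.ne'
  push_cast
  rw [div_self hn']

lemma mul_pow_le {b c : G} (hb : b ∈ s.A) (hc : c ∈ s.A) (n : ℕ) :
    s.P.le ((b * c) ^ n) (b ^ n * c ^ n) ∧ s.P.le (b ^ n * c ^ n) ((b * c) ^ n) := by
  induction n with
  | zero => simp only [pow_zero, mul_one]; exact ⟨s.P.refl _, s.P.refl _⟩
  | succ n ih =>
    obtain ⟨h1, h2⟩ := ih
    have hbn := pow_mem hb n
    have hcn := pow_mem hc n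
    have hbc := mul_mem hb hc
    -- b^n c^n (b c) ~ b^n b c^n c
    have h3 : s.P.le (b ^ n * c ^ n * (b * c)) (b ^ (n + 1) * c ^ (n + 1)) := by
      have := s.P.left (b ^ n) (s.P.swap s.hAA hcn hb c)
      have e1 : b ^ n * (c ^ n * b * c) = b ^ n * c ^ n * (b * c) := by group
      have e2 : b ^ n * (b * c ^ n * c) = b ^ (n + 1) * c ^ (n + 1) := by
        rw [pow_succ, pow_succ]; group
      rwa [e1, e2] at this
    have h4 : s.P.le (b ^ (n + 1) * c ^ (n + 1)) (b ^ n * c ^ n * (b * c)) := by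
      have := s.P.left (b ^ n) (s.P.swap s.hAA hb hcn c)
      have e1 : b ^ n * (c ^ n * b * c) = b ^ n * c ^ n * (b * c) := by group
      have e2 : b ^ n * (b * c ^ n * c) = b ^ (n + 1) * c ^ (n + 1) := by
        rw [pow_succ, pow_succ]; group
      rwa [e1, e2] at this
    constructor
    · rw [pow_succ]
      refine s.P.trans (s.P.mul_le s.hAA (mul_mem hbn hcn) hbc h1 (s.P.refl _) (pow_mem hbc n)) h3
    · rw [pow_succ (b * c)]
      refine s.P.trans h4 (s.P.mul_le s.hAA (pow_mem hbc n) hbc h2 (s.P.refl _) (mul_mem hbn hcn))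

lemma rho_mul {b c : G} (hb : b ∈ s.A) (hc : c ∈ s.A) : s.rho (b * c) = s.rho b + s.rho c := by
  have hb' := s.tendsto_rho hb
  have hc' := s.tendsto_rho hc
  have hbc' := s.tendsto_rho (mul_mem hb hc)
  have h2 : Tendsto (fun n : ℕ => (2 : ℝ) / n) atTop (𝓝 0) := tendsto_const_div_atTop_nhds_zero_nat 2
  have heq : ∀ n : ℕ, s.h ((b * c) ^ n) = s.h (b ^ n * c ^ n) := fun n =>
    le_antisymm (s.h_mono (s.mul_pow_le hb hc n).1) (s.h_mono (s.mul_pow_le hb hc n).2)
  apply le_antisymm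
  · have h3 := (hb'.add hc').add h2
    rw [add_zero] at h3
    refine le_of_tendsto_of_tendsto' hbc' h3 fun n => ?_
    have h4 := s.h_mul_le (c := c ^ n) (pow_mem hb n)
    rw [← heq n] at h4
    have h5 : (s.h ((b * c) ^ n) : ℝ) ≤ s.h (b ^ n) + s.h (c ^ n) + 2 := by exact_mod_cast h4
    rw [← add_div, ← add_div]
    exact div_le_div_of_nonneg_right h5 (Nat.cast_nonneg n)
  · refine le_of_tendsto_of_tendsto' (hb'.add hc') hbc' fun n => ?_
    have h4 := s.h_mul_ge (pow_mem hb n) (pow_mem hc n)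
    rw [← heq n] at h4
    have h5 : (s.h (b ^ n) : ℝ) + s.h (c ^ n) ≤ s.h ((b * c) ^ n) := by exact_mod_cast h4
    rw [← add_div]
    exact div_le_div_of_nonneg_right h5 (Nat.cast_nonneg n)

end Setup

end Pool.Agent.Sro
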